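import Pool.Agent.Work.MP_db9399_ll_helper61.Lllf

/-!
# List choice with pair conflicts and linear tests (helper61)
-/

set_option autoImplicit false
set_option linter.unusedSectionVars false

namespace Pool.Agent.Work.MP_db9399_ll.helper61

open Finset Classical

universe u v

theorem exp_sub_one_le {x : ℝ} (h0 : 0 ≤ x) (h1 : x ≤ 1) :
    Real.exp (1 / 10 * x) - 1 ≤ 1 / 9 * x := by
  have h2 : 1 - 1 / 10 * x ≤ Real.exp (-(1 / 10 * x)) := Real.one_sub_le_exp_neg _
  have h3 : 0 < 1 - 1 / 10 * x := by linarith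
  have h4 : Real.exp (1 / 10 * x) ≤ (1 - 1 / 10 * x)⁻¹ := by
    rw [Real.exp_neg] at h2
    rw [le_inv_comm₀ (Real.exp_pos _) h3]
    exact h2
  have h5 : (1 - 1 / 10 * x)⁻¹ ≤ 1 + 1 / 9 * x := by
    rw [inv_le_iff_one_le_mul₀ h3]
    nlinarith
  linarith

theorem exp_small {x : ℝ} (n : ℝ) (hn : 1 < n) (hx : x = 1 / n) :
    Real.exp x ≤ n / (n - 1) := by
  subst hx
  have h2 : 1 - 1 / n ≤ Real.exp (-(1 / n)) := Real.one_sub_le_exp_neg _
  have h3 : 0 < 1 - 1 / n := by
    rw [sub_pos, div_lt_one (by linarith)]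
    exact hn
  have h4 : Real.exp (1 / n) ≤ (1 - 1 / n)⁻¹ := by
    rw [Real.exp_neg] at h2
    rw [le_inv_comm₀ (Real.exp_pos _) h3]
    exact h2
  refine h4.trans (le_of_eq ?_)
  have h5 : n ≠ 0 := by linarith
  have h6 : n - 1 ≠ 0 := by linarith
  field_simp

theorem asy (A : ℝ) : ∃ d0 : ℕ, ∀ d : ℕ, d0 ≤ d →
    (d : ℝ) ^ A * Real.exp (-(2 * Real.log d ^ 2)) ≤ 1 / 400 ∧
    Real.exp (-(2 * Real.log d ^ 2)) ≤ 1 / 2 := by
  refine ⟨⌈Real.exp (max A 20)⌉₊, fun d hd => ?_⟩
  have h1 : Real.exp (max A 20) ≤ d := (Nat.le_ceil _).trans (by exact_mod_cast hd)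
  have h2 : (0 : ℝ) < d := (Real.exp_pos _).trans_le h1
  have h3 : max A 20 ≤ Real.log d := (Real.le_log_iff_exp_le h2).2 h1
  have h4 : A ≤ Real.log d := (le_max_left _ _).trans h3
  have h5 : 20 ≤ Real.log d := (le_max_right _ _).trans h3
  have h6 : Real.exp (-(Real.log d ^ 2)) ≤ 1 / 400 := by
    have h7 := Real.add_one_le_exp (Real.log d ^ 2)
    rw [Real.exp_neg, one_div]
    refine inv_anti₀ (by norm_num) ?_
    nlinarith
  constructor
  · refine le_trans (le_of_eq ?_) (le_trans (Real.exp_le_exp.2 (?_ :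
      Real.log d * A + -(2 * Real.log d ^ 2) ≤ -(Real.log d ^ 2))) h6)
    · rw [Real.rpow_def_of_pos h2, Real.exp_add]
    · nlinarith
  · refine le_trans (Real.exp_le_exp.2 (?_ : -(2 * Real.log d ^ 2) ≤ -(Real.log d ^ 2)))
      (h6.trans (by norm_num))
    nlinarith [sq_nonneg (Real.log d)]

section base

variable {σ β : Type u} [Fintype σ] [Fintype β]

theorem Ex_pair {p : σ → β → ℝ} (hp1 : ∀ s, ∑ b, p s b = 1) {s s' : σ} (hne : s ≠ s')
    (F : β → β → ℝ) :
    Ex p (fun f => F (f s) (f s')) = ∑ b, ∑ b', p s b * p s' b' * F b b' := by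
  let φ : β → β → σ → β → ℝ := fun b b' x c =>
    if x = s then (if c = b then 1 else 0) else (if c = b' then 1 else 0)
  have h0 : ∀ b b' (f : σ → β), ∏ x ∈ ({s, s'} : Finset σ), φ b b' x (f x) =
      (if f s = b then 1 else 0) * (if f s' = b' then 1 else 0) := by
    intro b b' f
    rw [prod_pair hne]
    simp only [φ, if_true, if_neg hne.symm]
  have h1 : ∀ f : σ → β, F (f s) (f s') =
      ∑ b, ∑ b', F b b' * ∏ x ∈ ({s, s'} : Finset σ), φ b b' x (f x) := by
    intro f
    rw [sum_eq_single (f s), sum_eq_single (f s')]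
    · rw [h0, if_pos rfl, if_pos rfl, mul_one, mul_one]
    · intro b' _ hb
      rw [h0, if_neg (Ne.symm hb), mul_zero, mul_zero]
    · intro h
      exact absurd (mem_univ _) h
    · intro b _ hb
      refine sum_eq_zero fun b' _ => ?_
      rw [h0, if_neg (Ne.symm hb), zero_mul, mul_zero]
    · intro h
      exact absurd (mem_univ _) h
  have h2 : Ex p (fun f => F (f s) (f s')) =
      ∑ b, ∑ b', F b b' * Ex p (fun f => ∏ x ∈ ({s, s'} : Finset σ), φ b b' x (f x)) := by
    unfold Ex
    simp only [mul_sum]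
    rw [sum_congr rfl fun f _ => by rw [h1 f, mul_sum]]
    rw [sum_comm]
    refine sum_congr rfl fun b _ => ?_
    rw [sum_congr rfl fun f _ => by rw [mul_sum]]
    rw [sum_comm]
    exact sum_congr rfl fun b' _ => sum_congr rfl fun f _ => by ring
  rw [h2]
  refine sum_congr rfl fun b _ => sum_congr rfl fun b' _ => ?_
  rw [Ex_prod hp1, prod_pair hne]
  have h3 : ∑ c, p s c * φ b b' s c = p s b := by
    simp only [φ, if_true, mul_ite, mul_one, mul_zero, sum_ite_eq', mem_univ]
  have h4 : ∑ c, p s' c * φ b b' s' c = p s' b' := by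
    simp only [φ, if_neg hne.symm, mul_ite, mul_one, mul_zero, sum_ite_eq', mem_univ, if_true]
  rw [h3, h4]
  ring

/-- uniform choice from the lists of `R` -/
noncomputable def pu (R : Finset σ) (L : σ → Finset β) (s : σ) (b : β) : ℝ :=
  if s ∈ R then (if b ∈ L s then ((L s).card : ℝ)⁻¹ else 0) else (Fintype.card β : ℝ)⁻¹

theorem pu_nonneg (R : Finset σ) (L : σ → Finset β) (s : σ) (b : β) : 0 ≤ pu R L s b := by
  unfold pu
  split_ifs <;> positivity

theorem pu_av {R : Finset σ} {L : σ → Finset β} {s : σ} (hs : s ∈ R) (φ : β → ℝ) :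
    ∑ b, pu R L s b * φ b = (∑ b ∈ L s, φ b) / ((L s).card : ℝ) := by
  have h1 : ∀ b, pu R L s b * φ b = if b ∈ L s then ((L s).card : ℝ)⁻¹ * φ b else 0 := by
    intro b
    unfold pu
    rw [if_pos hs]
    split_ifs
    · rfl
    · exact zero_mul _
  rw [sum_congr rfl fun b _ => h1 b, sum_ite_mem, univ_inter, ← mul_sum, div_eq_inv_mul]

theorem pu_sum [Nonempty β] {R : Finset σ} {L : σ → Finset β} (hL : ∀ s ∈ R, (L s).Nonempty)
    (s : σ) : ∑ b, pu R L s b = 1 := by
  by_cases hs : s ∈ R
  · have h1 := pu_av (L := L) hs (fun _ => 1)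
    simp only [mul_one, sum_const, nsmul_eq_mul] at h1
    rw [h1]
    have h2 : ((L s).card : ℝ) ≠ 0 := by
      exact_mod_cast (card_pos.2 (hL s hs)).ne'
    exact div_self h2
  · have h1 : ∀ b, pu R L s b = (Fintype.card β : ℝ)⁻¹ := fun b => if_neg hs
    rw [sum_congr rfl fun b _ => h1 b, sum_const, nsmul_eq_mul, card_univ]
    have h2 : (Fintype.card β : ℝ) ≠ 0 := by exact_mod_cast Fintype.card_pos.ne'
    exact mul_inv_cancel₀ h2

theorem pu_mem {R : Finset σ} {L : σ → Finset β} {f : σ → β} (hf : 0 < wt (pu R L) f) {s : σ}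
    (hs : s ∈ R) : f s ∈ L s := by
  by_contra h
  have h1 : pu R L s (f s) = 0 := by
    unfold pu
    rw [if_pos hs, if_neg h]
  exact hf.ne' (prod_eq_zero (mem_univ s) h1)

/-- fraction of conflicting pairs -/
noncomputable def cfr (L : σ → Finset β) (cf : σ → β → σ → β → Prop) (s s' : σ) : ℝ :=
  (((L s ×ˢ L s').filter fun z => cf s z.1 s' z.2).card : ℝ) /
    (((L s).card : ℝ) * ((L s').card : ℝ))

theorem cfr_nonneg (L : σ → Finset β) (cf : σ → β → σ → β → Prop) (s s' : σ) :
    0 ≤ cfr L cf s s' := by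
  unfold cfr
  positivity

theorem cfr_symm (L : σ → Finset β) (cf : σ → β → σ → β → Prop)
    (hcf : ∀ s y s' y', cf s y s' y' → cf s' y' s y) (s s' : σ) :
    cfr L cf s s' = cfr L cf s' s := by
  unfold cfr
  congr 1
  · norm_cast
    refine card_bij' (fun z _ => (z.2, z.1)) (fun z _ => (z.2, z.1)) ?_ ?_ (fun _ _ => rfl)
      (fun _ _ => rfl)
    · intro z hz
      rw [mem_filter, mem_product] at hz ⊢
      exact ⟨⟨hz.1.2, hz.1.1⟩, hcf _ _ _ _ hz.2⟩
    · intro z hz
      rw [mem_filter, mem_product] at hz ⊢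
      exact ⟨⟨hz.1.2, hz.1.1⟩, hcf _ _ _ _ hz.2⟩
  · ring

theorem Ex_cf [Nonempty β] {R : Finset σ} {L : σ → Finset β} (hL : ∀ s ∈ R, (L s).Nonempty)
    (cf : σ → β → σ → β → Prop) {s s' : σ} (hs : s ∈ R) (hs' : s' ∈ R) (hne : s ≠ s') :
    Ex (pu R L) (fun f => if cf s (f s) s' (f s') then 1 else 0) = cfr L cf s s' := by
  have h1 := Ex_pair (pu_sum hL) hne (fun b b' => if cf s b s' b' then (1 : ℝ) else 0)
  rw [h1]
  have h2 : ∀ b, ∑ b', pu R L s b * pu R L s' b' * (if cf s b s' b' then (1 : ℝ) else 0) =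
      pu R L s b * ((∑ b' ∈ L s', if cf s b s' b' then (1 : ℝ) else 0) / ((L s').card : ℝ)) := by
    intro b
    rw [← pu_av hs', mul_sum]
    exact sum_congr rfl fun b' _ => by ring
  rw [sum_congr rfl fun b _ => h2 b, pu_av hs]
  unfold cfr
  rw [← sum_div, div_div, card_filter, sum_product]
  push_cast
  rw [mul_comm ((L s').card : ℝ)]

end base

section main

variable {σ β : Type u} [Fintype σ] [Fintype β]

/-- slots used by the test `x` -/
noncomputable def tsc (R : Finset σ) (L : σ → Finset β) (x : σ → β → ℝ) : Finset σ :=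
  R.filter fun s => ∃ y ∈ L s, x s y ≠ 0

/-- one test: the witnesses -/
noncomputable def twit (R : Finset σ) (L : σ → Finset β) (x : σ → β → ℝ) (t : ℝ)
    (S : Finset σ) (f : σ → β) : ℝ :=
  if S ⊆ tsc R L x then (∏ s ∈ S, (Real.exp (1 / 10 * if f s ∈ L s then x s (f s) else 0) - 1)) *
    Real.exp (-(1 / 10 * t)) else 0

variable {R : Finset σ} {L : σ → Finset β} {x : σ → β → ℝ} {t : ℝ}

theorem ite_bd (hx : ∀ s ∈ R, ∀ y ∈ L s, 0 ≤ x s y ∧ x s y ≤ 1) {s : σ} (hs : s ∈ R) (b : β) :
    0 ≤ (if b ∈ L s then x s b else 0) ∧ (if b ∈ L s then x s b else 0) ≤ 1 := by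
  split_ifs with h
  · exact hx s hs b h
  · exact ⟨le_rfl, zero_le_one⟩

theorem twit_nonneg (hx : ∀ s ∈ R, ∀ y ∈ L s, 0 ≤ x s y ∧ x s y ≤ 1) (S : Finset σ)
    (f : σ → β) : 0 ≤ twit R L x t S f := by
  unfold twit
  split_ifs with hS
  · refine mul_nonneg (prod_nonneg fun s hs => ?_) (Real.exp_pos _).le
    have h1 := (ite_bd hx (mem_filter.1 (hS hs)).1 (f s)).1
    have h2 : 1 ≤ Real.exp (1 / 10 * if f s ∈ L s then x s (f s) else 0) :=
      Real.one_le_exp (mul_nonneg (by norm_num) h1)
    linarith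
  · exact le_rfl

theorem twit_dep (S : Finset σ) : Dep S (twit R L x t S) := by
  intro f f' hf
  unfold twit
  split_ifs
  · congr 1
    exact prod_congr rfl fun s hs => by rw [hf s hs]
  · rfl

theorem twit_cov (f : σ → β)
    (h : ¬ ∑ s ∈ tsc R L x, (if f s ∈ L s then x s (f s) else 0) ≤ t) :
    1 ≤ ∑ S : Finset σ, twit R L x t S f := by
  have h1 : ∑ S : Finset σ, twit R L x t S f =
      (∏ s ∈ tsc R L x, (1 + (Real.exp (1 / 10 * if f s ∈ L s then x s (f s) else 0) - 1))) *
        Real.exp (-(1 / 10 * t)) := by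
    rw [prod_one_add, sum_mul]
    unfold twit
    rw [← sum_filter]
    refine sum_congr ?_ fun _ _ => rfl
    ext S
    simp only [mem_filter, mem_univ, true_and, mem_powerset]
  rw [h1]
  have h2 : ∀ s, 1 + (Real.exp (1 / 10 * if f s ∈ L s then x s (f s) else 0) - 1) =
      Real.exp (1 / 10 * if f s ∈ L s then x s (f s) else 0) := fun s => by ring
  rw [prod_congr rfl fun s _ => h2 s, ← Real.exp_sum, ← Real.exp_add, ← mul_sum]
  refine Real.one_le_exp ?_
  push Not at h
  linarith

/-- the mean of a test -/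
noncomputable def mean (R : Finset σ) (L : σ → Finset β) (x : σ → β → ℝ) : ℝ :=
  ∑ s ∈ R, (∑ y ∈ L s, x s y) / ((L s).card : ℝ)

theorem twit_w [Nonempty β] (hL : ∀ s ∈ R, (L s).Nonempty)
    (hx : ∀ s ∈ R, ∀ y ∈ L s, 0 ≤ x s y ∧ x s y ≤ 1) {l : ℝ}
    (ht : t = 5 / 4 * mean R L x + 20 * l) :
    ∑ S : Finset σ, Ex (pu R L) (twit R L x t S) * Real.exp (2 * (1 / 32) * (S.card : ℝ)) ≤
      Real.exp (-(2 * l)) := by
  set y : σ → ℝ := fun s => (∑ b ∈ L s, x s b) / ((L s).card : ℝ) with hy
  have hy0 : ∀ s ∈ R, 0 ≤ y s := fun s hs =>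
    div_nonneg (sum_nonneg fun b hb => (hx s hs b hb).1) (Nat.cast_nonneg _)
  have hm : mean R L x = ∑ s ∈ R, y s := rfl
  -- expectation of a witness
  have h1 : ∀ S : Finset σ, Ex (pu R L) (twit R L x t S) *
      Real.exp (2 * (1 / 32) * (S.card : ℝ)) ≤
      if S ⊆ tsc R L x then (∏ s ∈ S, (16 / 135 * y s)) * Real.exp (-(1 / 10 * t)) else 0 := by
    intro S
    by_cases hS : S ⊆ tsc R L x
    · rw [if_pos hS]
      have h2 : Ex (pu R L) (twit R L x t S) =
          (∏ s ∈ S, ∑ b, pu R L s b *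
            (Real.exp (1 / 10 * if b ∈ L s then x s b else 0) - 1)) *
            Real.exp (-(1 / 10 * t)) := by
        rw [← Ex_prod (pu_sum hL) S
          (fun s b => Real.exp (1 / 10 * if b ∈ L s then x s b else 0) - 1)]
        unfold Ex twit
        rw [sum_mul]
        refine sum_congr rfl fun f _ => ?_
        rw [if_pos hS]
        ring
      have h3 : Real.exp (2 * (1 / 32) * (S.card : ℝ)) = ∏ s ∈ S, Real.exp (1 / 16) := by
        rw [prod_const, ← Real.exp_nat_mul]
        congr 1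
        ring
      rw [h2, h3, mul_right_comm, ← prod_mul_distrib]
      refine mul_le_mul_of_nonneg_right ?_ (Real.exp_pos _).le
      have h5 : Real.exp (1 / 16) ≤ 16 / 15 := by
        refine (exp_small 16 (by norm_num) rfl).trans (le_of_eq (by norm_num))
      refine prod_le_prod (fun s hs => ?_) (fun s hs => ?_)
      · have hsR := (mem_filter.1 (hS hs)).1
        refine mul_nonneg (sum_nonneg fun b _ => mul_nonneg (pu_nonneg R L s b) ?_)
          (Real.exp_pos _).le
        have h6 := (ite_bd hx hsR b).1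
        have h7 : 1 ≤ Real.exp (1 / 10 * if b ∈ L s then x s b else 0) :=
          Real.one_le_exp (mul_nonneg (by norm_num) h6)
        linarith
      · have hsR := (mem_filter.1 (hS hs)).1
        have h6 : ∑ b, pu R L s b * (Real.exp (1 / 10 * if b ∈ L s then x s b else 0) - 1) ≤
            1 / 9 * y s := by
          have h7 : ∑ b, pu R L s b * (if b ∈ L s then x s b else 0) = y s := by
            rw [pu_av hsR]
            show _ = (∑ b ∈ L s, x s b) / ((L s).card : ℝ)
            congr 1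
            exact sum_congr rfl fun b hb => if_pos hb
          rw [← h7, mul_sum]
          refine sum_le_sum fun b _ => ?_
          have h8 := exp_sub_one_le (ite_bd hx hsR b).1 (ite_bd hx hsR b).2
          calc _ ≤ pu R L s b * (1 / 9 * if b ∈ L s then x s b else 0) :=
                mul_le_mul_of_nonneg_left h8 (pu_nonneg R L s b)
            _ = _ := by ring
        have h9 := mul_le_mul h6 h5 (Real.exp_pos _).le
          (mul_nonneg (by norm_num) (hy0 s hsR))
        refine h9.trans (le_of_eq (by ring))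
    · rw [if_neg hS]
      have h2 : twit R L x t S = fun _ => 0 := by
        funext f
        exact if_neg hS
      rw [h2]
      unfold Ex
      simp only [mul_zero, sum_const_zero, zero_mul, le_refl]
  refine (sum_le_sum fun S _ => h1 S).trans ?_
  have h2 : (∑ S : Finset σ, if S ⊆ tsc R L x then
      (∏ s ∈ S, (16 / 135 * y s)) * Real.exp (-(1 / 10 * t)) else 0) =
      (∏ s ∈ tsc R L x, (1 + 16 / 135 * y s)) * Real.exp (-(1 / 10 * t)) := by
    rw [prod_one_add, sum_mul, ← sum_filter]
    refine sum_congr ?_ fun _ _ => rfl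
    ext S
    simp only [mem_filter, mem_univ, true_and, mem_powerset]
  rw [h2]
  have h3 : ∏ s ∈ tsc R L x, (1 + 16 / 135 * y s) ≤ Real.exp (16 / 135 * mean R L x) := by
    calc ∏ s ∈ tsc R L x, (1 + 16 / 135 * y s)
        ≤ ∏ s ∈ tsc R L x, Real.exp (16 / 135 * y s) := by
          refine prod_le_prod (fun s hs => ?_) (fun s _ => ?_)
          · have := hy0 s (mem_filter.1 hs).1
            linarith
          · have := Real.add_one_le_exp (16 / 135 * y s)
            linarith
      _ = Real.exp (∑ s ∈ tsc R L x, 16 / 135 * y s) := (Real.exp_sum _ _).symm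
      _ ≤ _ := by
          refine Real.exp_le_exp.2 ?_
          rw [hm, mul_sum]
          exact sum_le_sum_of_subset_of_nonneg (filter_subset _ _) fun s hs _ =>
            mul_nonneg (by norm_num) (hy0 s hs)
  have hm0 : 0 ≤ mean R L x := by
    rw [hm]
    exact sum_nonneg hy0
  calc _ ≤ Real.exp (16 / 135 * mean R L x) * Real.exp (-(1 / 10 * t)) :=
        mul_le_mul_of_nonneg_right h3 (Real.exp_pos _).le
    _ = Real.exp (16 / 135 * mean R L x + -(1 / 10 * t)) := (Real.exp_add _ _).symm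
    _ ≤ _ := by
        refine Real.exp_le_exp.2 ?_
        rw [ht]
        linarith

end main

section fin

variable {σ β : Type u} {τ : Type v} [Fintype σ] [Fintype β] [Fintype τ]

/-- active pairs (each unordered pair once) -/
def act (R : Finset σ) (z : σ × σ) : Prop :=
  z.1 ∈ R ∧ z.2 ∈ R ∧ Fintype.equivFin σ z.1 < Fintype.equivFin σ z.2

theorem act_ne {R : Finset σ} {z : σ × σ} (h : act R z) : z.1 ≠ z.2 := by
  intro h1
  have h2 := h.2.2
  rw [h1] at h2
  exact lt_irrefl _ h2

/-- slots of a constraint -/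
noncomputable def Scr (R : Finset σ) (L : σ → Finset β) (x : τ → σ → β → ℝ) :
    (σ × σ) ⊕ τ → Finset σ
  | Sum.inl z => if act R z then {z.1, z.2} else ∅
  | Sum.inr q => tsc R L (x q)

/-- the constraints -/
def Pr (R : Finset σ) (L : σ → Finset β) (cf : σ → β → σ → β → Prop) (x : τ → σ → β → ℝ)
    (t : τ → ℝ) : (σ × σ) ⊕ τ → (σ → β) → Prop
  | Sum.inl z, f => act R z → ¬ cf z.1 (f z.1) z.2 (f z.2)
  | Sum.inr q, f => ∑ s ∈ tsc R L (x q), (if f s ∈ L s then x q s (f s) else 0) ≤ t q

/-- the witnesses -/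
noncomputable def hr (R : Finset σ) (L : σ → Finset β) (cf : σ → β → σ → β → Prop)
    (x : τ → σ → β → ℝ) (t : τ → ℝ) : (σ × σ) ⊕ τ → Finset σ → (σ → β) → ℝ
  | Sum.inl z, S, f => if S = {z.1, z.2} ∧ act R z ∧ cf z.1 (f z.1) z.2 (f z.2) then 1 else 0
  | Sum.inr q, S, f => twit R L (x q) (t q) S f

/-- the weights -/
noncomputable def wr (R : Finset σ) (L : σ → Finset β) (cf : σ → β → σ → β → Prop) (l : ℝ) :
    (σ × σ) ⊕ τ → ℝ
  | Sum.inl z => if act R z then 8 / 7 * cfr L cf z.1 z.2 else 0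
  | Sum.inr _ => Real.exp (-(2 * l))

/-- normalized form -/
theorem LLn [Nonempty β] {N l : ℝ} (R : Finset σ) (L : σ → Finset β)
    (cf : σ → β → σ → β → Prop) (x : τ → σ → β → ℝ)
    (hN1 : N * Real.exp (-(2 * l)) ≤ 1 / 400) (hN2 : Real.exp (-(2 * l)) ≤ 1 / 2)
    (hL : ∀ s ∈ R, (L s).Nonempty) (hcf : ∀ s y s' y', cf s y s' y' → cf s' y' s y)
    (hc : ∀ s ∈ R, ∑ s' ∈ R.erase s, cfr L cf s s' ≤ 1 / 40)
    (hx : ∀ q, ∀ s ∈ R, ∀ y ∈ L s, 0 ≤ x q s y ∧ x q s y ≤ 1)
    (hq : ∀ s ∈ R, ((univ.filter fun q => ∃ y ∈ L s, x q s y ≠ 0).card : ℝ) ≤ N) :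
    ∃ f : σ → β, (∀ s ∈ R, f s ∈ L s) ∧
      (∀ s ∈ R, ∀ s' ∈ R, s ≠ s' → ¬ cf s (f s) s' (f s')) ∧
      ∀ q, ∑ s ∈ R, x q s (f s) ≤ 5 / 4 * mean R L (x q) + 20 * l := by
  set t : τ → ℝ := fun q => 5 / 4 * mean R L (x q) + 20 * l with ht
  have hE : 0 < Real.exp (-(2 * l)) := Real.exp_pos _
  have hpc : ∀ z, act R z → cfr L cf z.1 z.2 ≤ 1 / 40 := by
    intro z hz
    refine le_trans ?_ (hc z.1 hz.1)
    exact single_le_sum (f := fun s' => cfr L cf z.1 s') (fun s' _ => cfr_nonneg L cf z.1 s')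
      (mem_erase.2 ⟨(act_ne hz).symm, hz.2.1⟩)
  obtain ⟨f, hf1, hf2⟩ := lllf (p := pu R L) (P := Pr R L cf x t) (pu_nonneg R L) (pu_sum hL)
    (T := 1 / 32) (by norm_num) (Scr R L x) (wr R L cf l) (by
      rintro (z | q) f f' hf
      · show (act R z → ¬ cf z.1 (f z.1) z.2 (f z.2)) =
          (act R z → ¬ cf z.1 (f' z.1) z.2 (f' z.2))
        by_cases hz : act R z
        · have h1 : Scr R L x (Sum.inl z) = {z.1, z.2} := if_pos hz
          rw [h1] at hf
          rw [hf z.1 (mem_insert_self _ _), hf z.2 (mem_insert_of_mem (mem_singleton_self _))]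
        · simp only [hz, false_imp_iff]
      · show (∑ s ∈ tsc R L (x q), (if f s ∈ L s then x q s (f s) else 0) ≤ t q) =
          (∑ s ∈ tsc R L (x q), (if f' s ∈ L s then x q s (f' s) else 0) ≤ t q)
        rw [sum_congr rfl fun s hs => by rw [hf s hs]])
    (fun _ => Finset σ) (fun _ S => S) (hr R L cf x t) (by
      rintro (z | q) S f
      · show 0 ≤ (if S = {z.1, z.2} ∧ act R z ∧ cf z.1 (f z.1) z.2 (f z.2) then (1 : ℝ) else 0)
        split_ifs <;> norm_num
      · exact twit_nonneg (hx q) S f) (by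
      rintro (z | q) S
      · intro f f' hf
        show (if S = {z.1, z.2} ∧ act R z ∧ cf z.1 (f z.1) z.2 (f z.2) then (1 : ℝ) else 0) =
          (if S = {z.1, z.2} ∧ act R z ∧ cf z.1 (f' z.1) z.2 (f' z.2) then (1 : ℝ) else 0)
        by_cases hS : S = {z.1, z.2}
        · rw [hS] at hf
          rw [hf z.1 (mem_insert_self _ _), hf z.2 (mem_insert_of_mem (mem_singleton_self _))]
        · rw [if_neg fun h => hS h.1, if_neg fun h => hS h.1]
      · exact twit_dep S) (by
      rintro (z | q) f hP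
      · have h1 : act R z ∧ cf z.1 (f z.1) z.2 (f z.2) := by
          by_contra h
          exact hP fun ha hb => h ⟨ha, hb⟩
        refine le_trans (le_of_eq ?_) (single_le_sum
          (f := fun S => hr R L cf x t (Sum.inl z) S f) (fun S _ => ?_)
          (mem_univ ({z.1, z.2} : Finset σ)))
        · exact (if_pos ⟨rfl, h1⟩).symm
        · show 0 ≤ (if S = {z.1, z.2} ∧ act R z ∧ cf z.1 (f z.1) z.2 (f z.2) then (1 : ℝ)
            else 0)
          split_ifs <;> norm_num
      · exact twit_cov f hP) (by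
      rintro (z | q)
      · show _ ≤ (if act R z then 8 / 7 * cfr L cf z.1 z.2 else 0)
        rw [sum_eq_single ({z.1, z.2} : Finset σ)]
        · split_ifs with hz
          · have h1 : Ex (pu R L) (hr R L cf x t (Sum.inl z) {z.1, z.2}) =
                cfr L cf z.1 z.2 := by
              rw [← Ex_cf hL cf hz.1 hz.2.1 (act_ne hz)]
              congr 1
              funext f
              show (if ({z.1, z.2} : Finset σ) = {z.1, z.2} ∧ act R z ∧
                cf z.1 (f z.1) z.2 (f z.2) then (1 : ℝ) else 0) = _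
              by_cases h2 : cf z.1 (f z.1) z.2 (f z.2)
              · rw [if_pos h2, if_pos ⟨rfl, hz, h2⟩]
              · rw [if_neg h2, if_neg fun h => h2 h.2.2]
            rw [h1, card_pair (act_ne hz), mul_comm]
            refine mul_le_mul_of_nonneg_right ?_ (cfr_nonneg L cf _ _)
            exact (exp_small 8 (by norm_num) (by norm_num)).trans (le_of_eq (by norm_num))
          · have h1 : hr R L cf x t (Sum.inl z) {z.1, z.2} = fun _ => 0 := by
              funext f
              exact if_neg fun h => hz h.2.1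
            rw [h1]
            unfold Ex
            simp only [mul_zero, sum_const_zero, zero_mul, le_refl]
        · intro S _ hS
          have h1 : hr R L cf x t (Sum.inl z) S = fun _ => 0 := by
            funext f
            exact if_neg fun h => hS h.1
          rw [h1]
          unfold Ex
          simp only [mul_zero, sum_const_zero, zero_mul]
        · intro h
          exact absurd (mem_univ _) h
      · exact twit_w hL (hx q) rfl) (by
      rintro (z | q)
      · show (if act R z then 8 / 7 * cfr L cf z.1 z.2 else 0) ≤ 1 / 2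
        split_ifs with hz
        · have := hpc z hz
          linarith
        · norm_num
      · exact hN2) (by
      intro s
      rw [sum_filter, Fintype.sum_sum_type]
      have h1 : ∑ q : τ, (if s ∈ Scr R L x (Sum.inr q) then
          wr (τ := τ) R L cf l (Sum.inr q) else 0) ≤ 1 / 400 := by
        by_cases hs : s ∈ R
        · have h2 : ∑ q : τ, (if s ∈ Scr R L x (Sum.inr q) then
              wr (τ := τ) R L cf l (Sum.inr q) else 0) =
              ((univ.filter fun q => ∃ y ∈ L s, x q s y ≠ 0).card : ℝ) *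
                Real.exp (-(2 * l)) := by
            rw [← sum_filter, ← nsmul_eq_mul, ← sum_const]
            refine sum_congr ?_ fun _ _ => rfl
            ext q
            simp only [Scr, tsc, mem_filter, mem_univ, true_and, hs]
          rw [h2]
          exact (mul_le_mul_of_nonneg_right (hq s hs) hE.le).trans hN1
        · have h2 : ∀ q : τ, s ∉ Scr R L x (Sum.inr q) := fun q h => hs (mem_filter.1 h).1
          rw [sum_congr rfl fun q _ => if_neg (h2 q), sum_const_zero]
          norm_num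
      have h2 : ∑ z : σ × σ, (if s ∈ Scr R L x (Sum.inl z) then
          wr (τ := τ) R L cf l (Sum.inl z) else 0) ≤ 8 / 7 * (1 / 40) := by
        by_cases hs : s ∈ R
        · have h3 : ∀ z : σ × σ, (if s ∈ Scr R L x (Sum.inl z) then
              wr (τ := τ) R L cf l (Sum.inl z) else 0) ≤
              (if z.1 = s then (if act R z then 8 / 7 * cfr L cf z.1 z.2 else 0) else 0) +
              (if z.2 = s then (if act R z then 8 / 7 * cfr L cf z.1 z.2 else 0) else 0) := by
            intro z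
            show (if s ∈ (if act R z then ({z.1, z.2} : Finset σ) else ∅) then
              (if act R z then 8 / 7 * cfr L cf z.1 z.2 else 0) else 0) ≤ _
            have h4 := cfr_nonneg L cf z.1 z.2
            by_cases hz : act R z
            · rw [if_pos hz, if_pos hz]
              by_cases h5 : z.1 = s
              · by_cases h6 : z.2 = s
                · exact absurd (h5.trans h6.symm) (act_ne hz)
                · rw [if_pos h5, if_neg h6]
                  split_ifs
                  · linarith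
                  · linarith
              · by_cases h6 : z.2 = s
                · rw [if_pos h6, if_neg h5]
                  split_ifs
                  · linarith
                  · linarith
                · rw [if_neg h5, if_neg h6, if_neg]
                  · linarith
                  · intro h7
                    rcases mem_insert.1 h7 with h8 | h8
                    · exact h5 h8.symm
                    · exact h6 (mem_singleton.1 h8).symm
            · simp only [if_neg hz, notMem_empty, ite_self, add_zero, le_refl]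
          refine (sum_le_sum fun z _ => h3 z).trans ?_
          rw [sum_add_distrib, Fintype.sum_prod_type, Fintype.sum_prod_type_right]
          simp only [sum_ite_irrel, sum_const_zero, sum_ite_eq', mem_univ, if_true]
          rw [← sum_add_distrib]
          have h4 : ∀ s' : σ, (if act R (s, s') then 8 / 7 * cfr L cf s s' else 0) +
              (if act R (s', s) then 8 / 7 * cfr L cf s' s else 0) ≤
              if s' ∈ R.erase s then 8 / 7 * cfr L cf s s' else 0 := by
            intro s'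
            have h5 := cfr_nonneg L cf s s'
            rw [cfr_symm L cf hcf s' s]
            by_cases h6 : act R (s, s')
            · have h7 : ¬ act R (s', s) := fun h => lt_asymm h.2.2 h6.2.2
              rw [if_pos h6, if_neg h7, add_zero,
                if_pos (mem_erase.2 ⟨(act_ne h6).symm, h6.2.1⟩)]
            · by_cases h7 : act R (s', s)
              · rw [if_neg h6, if_pos h7, zero_add,
                  if_pos (mem_erase.2 ⟨act_ne h7, h7.1⟩)]
              · rw [if_neg h6, if_neg h7, add_zero]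
                split_ifs
                · linarith
                · exact le_rfl
          refine (sum_le_sum fun s' _ => h4 s').trans ?_
          rw [sum_ite_mem, univ_inter, ← mul_sum]
          exact mul_le_mul_of_nonneg_left (hc s hs) (by norm_num)
        · have h3 : ∀ z : σ × σ, s ∉ Scr R L x (Sum.inl z) := by
            intro z h
            have h4 : s ∈ (if act R z then ({z.1, z.2} : Finset σ) else ∅) := h
            split_ifs at h4 with h5
            · rcases mem_insert.1 h4 with h6 | h6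
              · exact hs (h6 ▸ h5.1)
              · exact hs ((mem_singleton.1 h6) ▸ h5.2.1)
            · exact notMem_empty _ h4
          rw [sum_congr rfl fun z _ => if_neg (h3 z), sum_const_zero]
          norm_num
      linarith)
  refine ⟨f, fun s hs => pu_mem hf1 hs, fun s hs s' hs' hne => ?_, fun q => ?_⟩
  · rcases lt_trichotomy (Fintype.equivFin σ s) (Fintype.equivFin σ s') with h | h | h
    · exact hf2 (Sum.inl (s, s')) ⟨hs, hs', h⟩
    · exact absurd ((Fintype.equivFin σ).injective h) hne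
    · intro h1
      exact hf2 (Sum.inl (s', s)) ⟨hs', hs, h⟩ (hcf _ _ _ _ h1)
  · have h1 : ∑ s ∈ tsc R L (x q), (if f s ∈ L s then x q s (f s) else 0) ≤ t q :=
      hf2 (Sum.inr q)
    refine le_trans (le_of_eq ?_) h1
    unfold tsc
    rw [sum_filter]
    refine sum_congr rfl fun s hs => ?_
    have hfs := pu_mem hf1 hs
    rw [if_pos hfs]
    split_ifs with h2
    · rfl
    · by_contra h3
      exact h2 ⟨f s, hfs, h3⟩

end fin

/-- The list lemma: slots `s ∈ R` with lists `L s`, conflicts `cf s y s' y'`, tests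
`w q s y ∈ [0, W q]`. -/
theorem LL (A : ℝ) : ∃ d0 : ℕ, ∀ {σ β : Type u} {τ : Type v} [Fintype σ] [Fintype β]
    [Fintype τ] [Nonempty β] (d : ℕ) (R : Finset σ) (L : σ → Finset β)
    (cf : σ → β → σ → β → Prop) (w : τ → σ → β → ℝ) (W : τ → ℝ), d0 ≤ d →
    (∀ s ∈ R, (L s).Nonempty) → (∀ s y s' y', cf s y s' y' → cf s' y' s y) →
    (∀ s ∈ R, ∑ s' ∈ R.erase s, (((L s ×ˢ L s').filter fun z => cf s z.1 s' z.2).card : ℝ) /
      (((L s).card : ℝ) * ((L s').card : ℝ)) ≤ 1 / 40) →
    (∀ q, 0 ≤ W q) → (∀ q, ∀ s ∈ R, ∀ y ∈ L s, 0 ≤ w q s y ∧ w q s y ≤ W q) →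
    (∀ s ∈ R, ((univ.filter fun q => ∃ y ∈ L s, w q s y ≠ 0).card : ℝ) ≤ (d : ℝ) ^ A) →
    ∃ f : σ → β, (∀ s ∈ R, f s ∈ L s) ∧
      (∀ s ∈ R, ∀ s' ∈ R, s ≠ s' → ¬ cf s (f s) s' (f s')) ∧
      ∀ q, ∑ s ∈ R, w q s (f s) ≤
        5 / 4 * (∑ s ∈ R, (∑ y ∈ L s, w q s y) / ((L s).card : ℝ)) +
          20 * W q * Real.log d ^ 2 := by
  obtain ⟨d0, hd0⟩ := asy A
  refine ⟨d0, ?_⟩
  intro σ β τ _ _ _ _ d R L cf w W hd hL hcf hc hW hw hq
  obtain ⟨ha, hb⟩ := hd0 d hd
  obtain ⟨f, h1, h2, h3⟩ := LLn (τ := τ) R L cf (fun q s y => w q s y / W q) ha hb hL hcf hc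
    (fun q s hs y hy => by
      obtain ⟨h1, h2⟩ := hw q s hs y hy
      refine ⟨div_nonneg h1 (hW q), ?_⟩
      rcases (hW q).eq_or_lt with h3 | h3
      · rw [← h3, div_zero]
        exact zero_le_one
      · exact (div_le_one h3).2 h2)
    (fun s hs => by
      refine le_trans ?_ (hq s hs)
      exact_mod_cast card_le_card fun q hq => by
        obtain ⟨_, y, hy, h⟩ := mem_filter.1 hq
        refine mem_filter.2 ⟨mem_univ q, y, hy, fun h0 => h ?_⟩
        show w q s y / W q = 0
        rw [h0, zero_div])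
  refine ⟨f, h1, h2, fun q => ?_⟩
  have h4 := h3 q
  rcases (hW q).eq_or_lt with h5 | h5
  · have h6 : ∀ s ∈ R, ∀ y ∈ L s, w q s y = 0 := fun s hs y hy => by
      obtain ⟨h6, h7⟩ := hw q s hs y hy
      rw [← h5] at h7
      exact le_antisymm h7 h6
    rw [sum_eq_zero fun s hs => h6 s hs (f s) (h1 s hs),
      sum_eq_zero (s := R) (f := fun s => (∑ y ∈ L s, w q s y) / ((L s).card : ℝ))
        fun s hs => by rw [sum_eq_zero fun y hy => h6 s hs y hy, zero_div], ← h5]
    simp
  · have h6 := mul_le_mul_of_nonneg_left h4 h5.le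
    have h7 : W q * ∑ s ∈ R, w q s (f s) / W q = ∑ s ∈ R, w q s (f s) := by
      rw [mul_sum]
      refine sum_congr rfl fun s _ => ?_
      field_simp
    have h8 : W q * mean R L (fun s y => w q s y / W q) =
        ∑ s ∈ R, (∑ y ∈ L s, w q s y) / ((L s).card : ℝ) := by
      unfold mean
      rw [mul_sum]
      refine sum_congr rfl fun s _ => ?_
      rw [← sum_div]
      field_simp
    rw [h7] at h6
    refine h6.trans (le_of_eq ?_)
    rw [← h8]
    ring

/-- The same with a bound for each value of a list: `∑ s', #{y' ∈ L s' : conflict}/|L s'|`. -/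
theorem LLdeg (A : ℝ) : ∃ d0 : ℕ, ∀ {σ β : Type u} {τ : Type v} [Fintype σ] [Fintype β]
    [Fintype τ] [Nonempty β] (d : ℕ) (R : Finset σ) (L : σ → Finset β)
    (cf : σ → β → σ → β → Prop) (w : τ → σ → β → ℝ) (W : τ → ℝ), d0 ≤ d →
    (∀ s ∈ R, (L s).Nonempty) → (∀ s y s' y', cf s y s' y' → cf s' y' s y) →
    (∀ s ∈ R, ∀ y ∈ L s, ∑ s' ∈ R.erase s, (((L s').filter fun y' => cf s y s' y').card : ℝ) /
      ((L s').card : ℝ) ≤ 1 / 40) →
    (∀ q, 0 ≤ W q) → (∀ q, ∀ s ∈ R, ∀ y ∈ L s, 0 ≤ w q s y ∧ w q s y ≤ W q) →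
    (∀ s ∈ R, ((univ.filter fun q => ∃ y ∈ L s, w q s y ≠ 0).card : ℝ) ≤ (d : ℝ) ^ A) →
    ∃ f : σ → β, (∀ s ∈ R, f s ∈ L s) ∧
      (∀ s ∈ R, ∀ s' ∈ R, s ≠ s' → ¬ cf s (f s) s' (f s')) ∧
      ∀ q, ∑ s ∈ R, w q s (f s) ≤
        5 / 4 * (∑ s ∈ R, (∑ y ∈ L s, w q s y) / ((L s).card : ℝ)) +
          20 * W q * Real.log d ^ 2 := by
  obtain ⟨d0, hd0⟩ := LL.{u, v} A
  refine ⟨d0, ?_⟩
  intro σ β τ _ _ _ _ d R L cf w W hd hL hcf hc hW hw hq
  refine hd0 d R L cf w W hd hL hcf (fun s hs => ?_) hW hw hq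
  have hLs : (0 : ℝ) < (L s).card := by exact_mod_cast card_pos.2 (hL s hs)
  have h1 : ∀ s', (((L s ×ˢ L s').filter fun z => cf s z.1 s' z.2).card : ℝ) /
      (((L s).card : ℝ) * ((L s').card : ℝ)) =
      (∑ y ∈ L s, (((L s').filter fun y' => cf s y s' y').card : ℝ) / ((L s').card : ℝ)) /
        ((L s).card : ℝ) := by
    intro s'
    rw [card_filter, sum_product, ← sum_div, div_div, mul_comm ((L s').card : ℝ)]
    congr 1
    push_cast
    exact sum_congr rfl fun y _ => by
      rw [card_filter]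
      push_cast
      rfl
  rw [sum_congr rfl fun s' _ => h1 s', ← sum_div, sum_comm, div_le_iff₀ hLs]
  calc ∑ y ∈ L s, ∑ s' ∈ R.erase s,
        (((L s').filter fun y' => cf s y s' y').card : ℝ) / ((L s').card : ℝ)
      ≤ ∑ y ∈ L s, (1 / 40 : ℝ) := sum_le_sum fun y hy => hc s hs y hy
    _ = 1 / 40 * ((L s).card : ℝ) := by rw [sum_const, nsmul_eq_mul, mul_comm]

end Pool.Agent.Work.MP_db9399_ll.helper61
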