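import Mathlib

/-!
# Local lemma in a product space with fractional witnesses (helper61)

`σ` slots, `β` values, `p s` distribution of the slot `s`. A constraint `P r` depends on the slots in
`Sc r`; if it fails, then `∑ k, h r k f ≥ 1` for nonnegative functions `h r k` which depend on the
slots in `Q r k`, and `∑ k, E (h r k) * exp (2 T |Q r k|) ≤ w r`.
-/

set_option autoImplicit false
set_option linter.unusedSectionVars false

namespace Pool.Agent.Work.MP_db9399_ll.helper61

open Finset Classical

universe u v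

variable {σ β : Type u} [Fintype σ] [Fintype β]

/-- weight of a choice -/
noncomputable def wt (p : σ → β → ℝ) (f : σ → β) : ℝ := ∏ s, p s (f s)

/-- expectation -/
noncomputable def Ex (p : σ → β → ℝ) (h : (σ → β) → ℝ) : ℝ := ∑ f, wt p f * h f

/-- `A` depends only on the slots in `Q` -/
def Dep {γ : Type v} (Q : Finset σ) (A : (σ → β) → γ) : Prop :=
  ∀ f f' : σ → β, (∀ s ∈ Q, f s = f' s) → A f = A f'

variable {p : σ → β → ℝ}

theorem wt_nonneg (hp : ∀ s b, 0 ≤ p s b) (f : σ → β) : 0 ≤ wt p f := prod_nonneg fun s _ => hp s _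

theorem Ex_mono (hp : ∀ s b, 0 ≤ p s b) {h g : (σ → β) → ℝ} (H : ∀ f, h f ≤ g f) :
    Ex p h ≤ Ex p g := sum_le_sum fun f _ => mul_le_mul_of_nonneg_left (H f) (wt_nonneg hp f)

theorem Ex_nonneg (hp : ∀ s b, 0 ≤ p s b) {h : (σ → β) → ℝ} (H : ∀ f, 0 ≤ h f) : 0 ≤ Ex p h :=
  sum_nonneg fun f _ => mul_nonneg (wt_nonneg hp f) (H f)

/-- products of functions of single slots -/
theorem Ex_prod (hp1 : ∀ s, ∑ b, p s b = 1) (S : Finset σ) (φ : σ → β → ℝ) :
    Ex p (fun f => ∏ s ∈ S, φ s (f s)) = ∏ s ∈ S, ∑ b, p s b * φ s b := by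
  have h1 : ∀ f : σ → β, wt p f * ∏ s ∈ S, φ s (f s) =
      ∏ s, p s (f s) * (if s ∈ S then φ s (f s) else 1) := by
    intro f
    unfold wt
    rw [prod_mul_distrib]
    congr 1
    rw [prod_ite_mem, univ_inter]
  unfold Ex
  rw [sum_congr rfl fun f _ => h1 f]
  have h2 := Finset.prod_univ_sum (fun _ : σ => (univ : Finset β))
    (fun s b => p s b * (if s ∈ S then φ s b else 1))
  rw [Fintype.piFinset_univ] at h2
  rw [← h2]
  have h3 : ∀ s, (∑ b, p s b * (if s ∈ S then φ s b else 1)) =
      if s ∈ S then ∑ b, p s b * φ s b else 1 := by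
    intro s
    split_ifs
    · rfl
    · simp only [mul_one]
      exact hp1 s
  rw [prod_congr rfl fun s _ => h3 s, prod_ite_mem, univ_inter]

theorem Ex_one (hp1 : ∀ s, ∑ b, p s b = 1) : Ex p (fun _ => 1) = 1 := by
  have h := Ex_prod hp1 ∅ (fun _ _ => 1)
  simpa using h

/-- exchange of the slots outside `Q` -/
noncomputable def mix (Q : Finset σ) (f g : σ → β) : σ → β := fun s => if s ∈ Q then f s else g s

theorem mix_wt (Q : Finset σ) (f g : σ → β) :
    wt p (mix Q f g) * wt p (mix Q g f) = wt p f * wt p g := by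
  unfold wt
  rw [← prod_mul_distrib, ← prod_mul_distrib]
  refine prod_congr rfl fun s _ => ?_
  unfold mix
  split_ifs
  · rfl
  · exact mul_comm _ _

theorem mix_mix (Q : Finset σ) (f g : σ → β) : mix Q (mix Q f g) (mix Q g f) = f := by
  funext s
  unfold mix
  split_ifs <;> rfl

theorem Ex_indep (hp1 : ∀ s, ∑ b, p s b = 1) (Q : Finset σ) (h g : (σ → β) → ℝ) (hh : Dep Q h)
    (hg : Dep Qᶜ g) : Ex p (fun f => h f * g f) = Ex p h * Ex p g := by
  have h1 : Ex p (fun f => h f * g f) = ∑ x : (σ → β) × (σ → β),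
      (wt p x.1 * wt p x.2) * (h x.1 * g x.1) := by
    rw [Fintype.sum_prod_type]
    have h2 : ∀ f : σ → β, ∑ f' : σ → β, (wt p f * wt p f') * (h f * g f) =
        (wt p f * (h f * g f)) * ∑ f' : σ → β, wt p f' * 1 := by
      intro f
      rw [mul_sum]
      exact sum_congr rfl fun f' _ => by ring
    rw [sum_congr rfl fun f _ => h2 f, ← sum_mul]
    have h3 : ∑ f' : σ → β, wt p f' * 1 = 1 := Ex_one hp1
    rw [h3, mul_one]
    rfl
  have h2 : ∑ x : (σ → β) × (σ → β), (wt p x.1 * wt p x.2) * (h x.1 * g x.1) =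
      ∑ x : (σ → β) × (σ → β), (wt p x.1 * wt p x.2) * (h x.1 * g x.2) := by
    refine Finset.sum_bij' (fun x _ => (mix Q x.1 x.2, mix Q x.2 x.1))
      (fun x _ => (mix Q x.1 x.2, mix Q x.2 x.1)) (fun _ _ => mem_univ _)
      (fun _ _ => mem_univ _) (fun x _ => ?_) (fun x _ => ?_) (fun x _ => ?_)
    · exact Prod.ext (mix_mix Q x.1 x.2) (mix_mix Q x.2 x.1)
    · exact Prod.ext (mix_mix Q x.1 x.2) (mix_mix Q x.2 x.1)
    · show _ = (wt p (mix Q x.1 x.2) * wt p (mix Q x.2 x.1)) *
        (h (mix Q x.1 x.2) * g (mix Q x.2 x.1))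
      rw [mix_wt, hh (mix Q x.1 x.2) x.1 (fun s hs => if_pos hs),
        hg (mix Q x.2 x.1) x.1 (fun s hs => if_neg (mem_compl.1 hs))]
  rw [h1, h2, Fintype.sum_prod_type]
  unfold Ex
  rw [sum_mul]
  refine sum_congr rfl fun f _ => ?_
  rw [mul_sum]
  exact sum_congr rfl fun f' _ => by ring

/-- indicator of a set of constraints -/
noncomputable def gd {ρ : Type v} (P : ρ → (σ → β) → Prop) (A : Finset ρ) (f : σ → β) : ℝ :=
  if ∀ r ∈ A, P r f then 1 else 0

section lll

variable {ρ : Type v} {P : ρ → (σ → β) → Prop}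

theorem gd_nonneg (A : Finset ρ) (f : σ → β) : 0 ≤ gd P A f := by
  unfold gd
  split_ifs <;> norm_num

theorem gd_le {A A' : Finset ρ} (h : A' ⊆ A) (f : σ → β) : gd P A f ≤ gd P A' f := by
  unfold gd
  split_ifs with h1 h2 h2
  · exact le_rfl
  · exact absurd (fun r hr => h1 r (h hr)) h2
  · exact zero_le_one
  · exact le_rfl

theorem gd_dep {Sc : ρ → Finset σ} (hP : ∀ r, Dep (Sc r) (P r)) (A : Finset ρ) (Q : Finset σ)
    (h : ∀ r ∈ A, Disjoint (Sc r) Q) : Dep Qᶜ (gd P A) := by
  intro f f' hf
  unfold gd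
  refine if_congr (forall₂_congr fun r hr => ?_) rfl rfl
  rw [hP r f f' fun s hs => hf s (mem_compl.2 (Finset.disjoint_left.1 (h r hr) hs))]

/-- The local lemma. -/
theorem lllf [Fintype ρ] (hp : ∀ s b, 0 ≤ p s b) (hp1 : ∀ s, ∑ b, p s b = 1) {T : ℝ}
    (hT : 0 ≤ T) (Sc : ρ → Finset σ) (w : ρ → ℝ) (hPd : ∀ r, Dep (Sc r) (P r))
    (κ : ρ → Type u) [∀ r, Fintype (κ r)] (Q : ∀ r, κ r → Finset σ)
    (h : ∀ r, κ r → (σ → β) → ℝ) (h0 : ∀ r k f, 0 ≤ h r k f) (hd : ∀ r k, Dep (Q r k) (h r k))
    (hcov : ∀ r f, ¬ P r f → 1 ≤ ∑ k, h r k f)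
    (hw : ∀ r, ∑ k, Ex p (h r k) * Real.exp (2 * T * ((Q r k).card : ℝ)) ≤ w r)
    (hw2 : ∀ r, w r ≤ 1 / 2) (hsum : ∀ s, ∑ r with s ∈ Sc r, w r ≤ T) :
    ∃ f, 0 < wt p f ∧ ∀ r, P r f := by
  have hw0 : ∀ r, 0 ≤ w r := fun r => (sum_nonneg fun k _ =>
    mul_nonneg (Ex_nonneg hp (h0 r k)) (Real.exp_pos _).le).trans (hw r)
  have key : ∀ n : ℕ, ∀ A : Finset ρ, A.card ≤ n → 0 < Ex p (gd P A) ∧
      ∀ (q : Finset σ) (φ : (σ → β) → ℝ), (∀ f, 0 ≤ φ f) → Dep q φ →
        Ex p (fun f => φ f * gd P A f) ≤
          Ex p φ * Real.exp (2 * T * (q.card : ℝ)) * Ex p (gd P A) := by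
    intro n
    induction n with
    | zero =>
      intro A hA
      have hA' : A = ∅ := card_eq_zero.1 (Nat.le_zero.1 hA)
      subst hA'
      have h1 : gd P (∅ : Finset ρ) = fun _ => 1 := by
        funext f
        unfold gd
        rw [if_pos (fun r hr => absurd hr (notMem_empty r))]
      rw [h1, Ex_one hp1]
      refine ⟨one_pos, fun q φ hφ _ => ?_⟩
      simp only [mul_one]
      refine le_mul_of_one_le_right (Ex_nonneg hp hφ) (Real.one_le_exp ?_)
      positivity
    | succ n ih =>
      -- one more constraint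
      have step : ∀ (A' : Finset ρ) (r : ρ), A'.card ≤ n →
          (1 - w r) * Ex p (gd P A') ≤ Ex p (gd P (insert r A')) := by
        intro A' r hA'
        obtain ⟨_, h2⟩ := ih A' hA'
        have h3 : ∀ f, gd P A' f ≤ gd P (insert r A') f + ∑ k, h r k f * gd P A' f := by
          intro f
          by_cases h4 : P r f
          · have h5 : gd P (insert r A') f = gd P A' f := by
              unfold gd
              by_cases h6 : ∀ x ∈ A', P x f
              · rw [if_pos h6, if_pos]
                intro x hx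
                rcases mem_insert.1 hx with h7 | h7
                · rw [h7]
                  exact h4
                · exact h6 x h7
              · rw [if_neg h6, if_neg]
                intro h7
                exact h6 fun x hx => h7 x (mem_insert_of_mem hx)
            rw [h5]
            exact le_add_of_nonneg_right (sum_nonneg fun k _ =>
              mul_nonneg (h0 r k f) (gd_nonneg _ _))
          · rw [← sum_mul]
            have h5 := mul_le_mul_of_nonneg_right (hcov r f h4) (gd_nonneg (P := P) A' f)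
            rw [one_mul] at h5
            exact h5.trans (le_add_of_nonneg_left (gd_nonneg _ _))
        have h4 : Ex p (gd P A') ≤ Ex p (gd P (insert r A')) +
            ∑ k, Ex p (fun f => h r k f * gd P A' f) := by
          refine (Ex_mono hp h3).trans (le_of_eq ?_)
          unfold Ex
          rw [sum_comm, ← sum_add_distrib]
          refine sum_congr rfl fun f _ => ?_
          rw [mul_add, mul_sum]
        have h5 : ∑ k, Ex p (fun f => h r k f * gd P A' f) ≤ w r * Ex p (gd P A') := by
          refine (sum_le_sum fun k _ => h2 (Q r k) (h r k) (h0 r k) (hd r k)).trans ?_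
          rw [← sum_mul]
          exact mul_le_mul_of_nonneg_right (hw r) (Ex_nonneg hp (gd_nonneg _))
        linarith
      intro A hA
      have hpos : 0 < Ex p (gd P A) := by
        rcases A.eq_empty_or_nonempty with rfl | ⟨r, hr⟩
        · exact (ih ∅ (by rw [card_empty]; exact Nat.zero_le _)).1
        · have h1 : (A.erase r).card ≤ n := by
            rw [card_erase_of_mem hr]
            omega
          have h2 := step (A.erase r) r h1
          rw [insert_erase hr] at h2
          exact lt_of_lt_of_le (mul_pos (by linarith [hw2 r]) (ih _ h1).1) h2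
      refine ⟨hpos, fun q φ hφ hdq => ?_⟩
      set A2 := A.filter fun r => Disjoint (Sc r) q with hA2
      have hsub2 : A2 ⊆ A := filter_subset _ _
      -- adding the constraints which meet `q`
      have grow : ∀ Bs : Finset ρ, Bs ⊆ A \ A2 →
          Real.exp (-(2 * ∑ r ∈ Bs, w r)) * Ex p (gd P A2) ≤ Ex p (gd P (A2 ∪ Bs)) := by
        intro Bs
        induction Bs using Finset.induction_on with
        | empty =>
          intro _
          rw [sum_empty, mul_zero, neg_zero, Real.exp_zero, one_mul, union_empty]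
        | insert r Bs hr ihB =>
          intro hsub
          have hrA := mem_sdiff.1 (hsub (mem_insert_self r Bs))
          have hB := ihB fun x hx => hsub (mem_insert_of_mem hx)
          have hlt : (A2 ∪ Bs).card ≤ n := by
            have h1 : A2 ∪ Bs ⊂ A := by
              refine ⟨union_subset hsub2 fun x hx =>
                (mem_sdiff.1 (hsub (mem_insert_of_mem hx))).1, fun h => ?_⟩
              rcases mem_union.1 (h hrA.1) with h2 | h2
              · exact hrA.2 h2
              · exact hr h2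
            have := card_lt_card h1
            omega
          have h2 := step (A2 ∪ Bs) r hlt
          have h3 : insert r (A2 ∪ Bs) = A2 ∪ insert r Bs := (union_insert r A2 Bs).symm
          rw [h3] at h2
          refine le_trans ?_ h2
          have h4 : Real.exp (-(2 * w r)) ≤ 1 - w r := by
            have h5 : 0 < 1 - w r := by linarith [hw2 r]
            rw [Real.exp_neg, inv_le_comm₀ (Real.exp_pos _) h5]
            have h6 : (1 - w r)⁻¹ ≤ 2 * w r + 1 := by
              rw [inv_le_iff_one_le_mul₀ h5]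
              nlinarith [hw0 r, hw2 r]
            exact h6.trans (Real.add_one_le_exp _)
          rw [sum_insert hr, show -(2 * (w r + ∑ x ∈ Bs, w x)) =
            -(2 * w r) + -(2 * ∑ x ∈ Bs, w x) by ring, Real.exp_add, mul_assoc]
          exact mul_le_mul h4 hB (mul_nonneg (Real.exp_pos _).le
            (Ex_nonneg hp (gd_nonneg _))) (by linarith [hw2 r])
      have h1 := grow (A \ A2) Subset.rfl
      rw [union_sdiff_of_subset hsub2] at h1
      have h2 : ∑ r ∈ A \ A2, w r ≤ T * (q.card : ℝ) := by
        have h3 : ∀ r ∈ A \ A2, w r ≤ ∑ s ∈ q, if s ∈ Sc r then w r else 0 := by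
          intro r hr
          have h4 : ¬ Disjoint (Sc r) q := fun h =>
            (mem_sdiff.1 hr).2 (mem_filter.2 ⟨(mem_sdiff.1 hr).1, h⟩)
          obtain ⟨s, hs, hs'⟩ := not_disjoint_iff.1 h4
          calc w r = if s ∈ Sc r then w r else 0 := (if_pos hs).symm
            _ ≤ _ := single_le_sum (f := fun s => if s ∈ Sc r then w r else 0) (fun s _ => by
                split_ifs
                · exact hw0 r
                · exact le_rfl) hs'
        refine (sum_le_sum h3).trans ?_
        rw [sum_comm]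
        calc ∑ s ∈ q, ∑ r ∈ A \ A2, (if s ∈ Sc r then w r else 0)
            ≤ ∑ s ∈ q, T := by
              refine sum_le_sum fun s _ => le_trans ?_ (hsum s)
              rw [sum_filter]
              exact sum_le_sum_of_subset_of_nonneg (subset_univ _) fun r _ _ => by
                split_ifs
                · exact hw0 r
                · exact le_rfl
          _ = T * (q.card : ℝ) := by rw [sum_const, nsmul_eq_mul, mul_comm]
      have h3 : Ex p (gd P A2) ≤ Real.exp (2 * T * (q.card : ℝ)) * Ex p (gd P A) := by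
        have h4 : Real.exp (-(2 * T * (q.card : ℝ))) * Ex p (gd P A2) ≤ Ex p (gd P A) := by
          refine le_trans (mul_le_mul_of_nonneg_right (Real.exp_le_exp.2 ?_)
            (Ex_nonneg hp (gd_nonneg _))) h1
          linarith
        have h5 := mul_le_mul_of_nonneg_left h4 (Real.exp_pos (2 * T * (q.card : ℝ))).le
        rw [← mul_assoc, ← Real.exp_add, add_neg_cancel, Real.exp_zero, one_mul] at h5
        exact h5
      calc Ex p (fun f => φ f * gd P A f) ≤ Ex p (fun f => φ f * gd P A2 f) :=
            Ex_mono hp fun f => mul_le_mul_of_nonneg_left (gd_le hsub2 f) (hφ f)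
        _ = Ex p φ * Ex p (gd P A2) := Ex_indep hp1 q φ (gd P A2) hdq
            (gd_dep hPd A2 q fun r hr => (mem_filter.1 hr).2)
        _ ≤ Ex p φ * (Real.exp (2 * T * (q.card : ℝ)) * Ex p (gd P A)) :=
            mul_le_mul_of_nonneg_left h3 (Ex_nonneg hp hφ)
        _ = _ := by ring
  have h1 := (key (univ : Finset ρ).card univ le_rfl).1
  obtain ⟨f, _, hf⟩ := exists_lt_of_sum_lt (s := univ) (f := fun _ : σ → β => (0 : ℝ))
    (g := fun f => wt p f * gd P univ f) (by
      rw [sum_const_zero]
      exact h1)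
  have h2 : gd P univ f ≠ 0 := by
    intro h
    simp only [h, mul_zero, lt_self_iff_false] at hf
  have h3 : ∀ r ∈ (univ : Finset ρ), P r f := by
    by_contra h
    exact h2 (if_neg h)
  refine ⟨f, ?_, fun r => h3 r (mem_univ r)⟩
  have h4 : gd P univ f = 1 := if_pos h3
  simp only [h4, mul_one] at hf
  exact hf

end lll

end Pool.Agent.Work.MP_db9399_ll.helper61
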